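import Pool.Agent.U41.PH.Stm

/-!
Project PH (helper41), package NK: smoothness over a residue field gives a certificate
(determinant trick for the homogeneous component of large degree of the ring modulo the partial
derivatives).
-/

set_option autoImplicit false

namespace Pool.Agent.U41.PH

open Pool.Agent.TH214.RM MvPolynomial

namespace NKW

/-- Clearing denominators. -/
lemma clear {O κ : Type} [CommRing O] [Field κ] {m : ℕ} (φ : O →+* κ)
    (hφ : ∀ z : κ, ∃ f g, φ g ≠ 0 ∧ z * φ g = φ f) (a : MvPolynomial (Fin m) κ) :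
    ∃ s : O, φ s ≠ 0 ∧ ∃ b : MvPolynomial (Fin m) O, C (φ s) * a = map φ b := by
  induction a using MvPolynomial.induction_on with
  | C z =>
    obtain ⟨f, g, hg, h⟩ := hφ z
    refine ⟨g, hg, C f, ?_⟩
    rw [map_C, ← h, ← C_mul, mul_comm]
  | add p q hp hq =>
    obtain ⟨s, hs, b, hb⟩ := hp
    obtain ⟨t, ht, c, hc⟩ := hq
    refine ⟨s * t, by rw [map_mul]; exact mul_ne_zero hs ht, C t * b + C s * c, ?_⟩
    simp only [map_mul, map_add, map_C]
    rw [← hb, ← hc]
    ring
  | mul_X p i hp =>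
    obtain ⟨s, hs, b, hb⟩ := hp
    refine ⟨s, hs, b * X i, ?_⟩
    simp only [map_mul, map_X]
    rw [← hb]
    ring

/-- Clearing denominators in an ideal. -/
lemma clearJ {O κ : Type} [CommRing O] [Field κ] {m : ℕ} (φ : O →+* κ)
    (hφ : ∀ z : κ, ∃ f g, φ g ≠ 0 ∧ z * φ g = φ f) (S : Fin m → MvPolynomial (Fin m) O)
    (a : MvPolynomial (Fin m) κ) (ha : a ∈ Ideal.span (Set.range fun j => map φ (S j))) :
    ∃ s : O, φ s ≠ 0 ∧ ∃ b ∈ Ideal.span (Set.range S), C (φ s) * a = map φ b := by
  induction ha using Submodule.span_induction with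
  | mem x hx =>
    obtain ⟨j, rfl⟩ := hx
    exact ⟨1, by simp, S j, Ideal.subset_span ⟨j, rfl⟩, by simp⟩
  | zero => exact ⟨1, by simp, 0, zero_mem _, by simp⟩
  | add x y _ _ hx hy =>
    obtain ⟨s, hs, b, hbm, hb⟩ := hx
    obtain ⟨t, ht, c, hcm, hc⟩ := hy
    refine ⟨s * t, by rw [map_mul]; exact mul_ne_zero hs ht, C t * b + C s * c,
      add_mem (Ideal.mul_mem_left _ _ hbm) (Ideal.mul_mem_left _ _ hcm), ?_⟩
    simp only [map_mul, map_add, map_C]
    rw [← hb, ← hc]
    ring
  | smul a x _ hx =>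
    obtain ⟨s, hs, b, hbm, hb⟩ := hx
    obtain ⟨t, ht, c, hc⟩ := clear φ hφ a
    refine ⟨s * t, by rw [map_mul]; exact mul_ne_zero hs ht, c * b,
      Ideal.mul_mem_left _ _ hbm, ?_⟩
    simp only [map_mul, smul_eq_mul]
    rw [← hb, ← hc]
    ring

/-- The determinant trick. -/
lemma nak {O κ M : Type} [CommRing O] [Field κ] [AddCommGroup M] [Module O M] (φ : O →+* κ)
    (N : Submodule O M) (hN : N.FG) (s : O) (hs : φ s ≠ 0)
    (h : ∀ x ∈ N, s • x ∈ RingHom.ker φ • N) : ∃ W : O, φ W ≠ 0 ∧ ∀ x ∈ N, W • x = 0 := by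
  have : Module.Finite O N := Module.Finite.iff_fg.2 hN
  obtain ⟨p, hp, -, hc, ha⟩ :=
    LinearMap.exists_monic_and_natDegree_eq_and_coeff_mem_pow_and_aeval_eq_zero O
      (algebraMap O (Module.End O N) s) (RingHom.ker φ) (by
        rintro _ ⟨x, rfl⟩
        rw [Module.algebraMap_end_apply]
        have h1 := h x x.2
        have h2 : (RingHom.ker φ • (⊤ : Submodule O N)).map N.subtype = RingHom.ker φ • N := by
          rw [Submodule.map_smul'', Submodule.map_top, Submodule.range_subtype]
        rw [← h2] at h1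
        obtain ⟨y, hy, hy2⟩ := h1
        have h3 : y = s • x := Subtype.ext (by simpa using hy2)
        rw [← h3]
        exact hy)
  have h1 : p.map φ = Polynomial.X ^ p.natDegree := by
    ext k
    rw [Polynomial.coeff_map, Polynomial.coeff_X_pow]
    rcases lt_trichotomy k p.natDegree with h2 | h2 | h2
    · rw [if_neg (by omega)]
      have h3 := Ideal.pow_le_self (by omega : p.natDegree - k ≠ 0) (hc k)
      exact h3
    · rw [if_pos h2, h2]
      have := hp.coeff_natDegree
      rw [this, map_one]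
    · rw [if_neg (by omega), Polynomial.coeff_eq_zero_of_natDegree_lt h2, map_zero]
  refine ⟨p.eval s, ?_, fun x hx => ?_⟩
  · rw [← Polynomial.eval_map_apply, h1, Polynomial.eval_pow, Polynomial.eval_X]
    exact pow_ne_zero _ hs
  · rw [Polynomial.aeval_algebraMap_apply] at ha
    have h2 := LinearMap.congr_fun ha ⟨x, hx⟩
    rw [Module.algebraMap_end_apply] at h2
    have h3 := congrArg Subtype.val h2
    simpa using h3

end NKW

open NKW

attribute [local instance] MvPolynomial.gradedAlgebra in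
theorem NK_ok : S_NK := by
  intro O κ _ _ _ m d φ F hF hφ hsm
  classical
  have hspan : Ideal.span (Set.range fun j => pderiv j (map φ F)) =
      Ideal.span (Set.range fun j => map φ (pderiv j F)) := by
    simp only [pderiv_map]
  obtain ⟨J, hJ⟩ : ∃ J, J = Ideal.span (Set.range fun j : Fin m => (pderiv j F : MvPolynomial (Fin m) O)) :=
    ⟨_, rfl⟩
  have hk : ∀ i : Fin m, ∃ k : ℕ, (X i : MvPolynomial (Fin m) κ) ^ k ∈
      Ideal.span (Set.range fun j => map φ (pderiv j F)) := by
    intro i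
    have h1 := hsm i
    rw [hspan] at h1
    exact h1
  choose k0 hk0 using hk
  obtain ⟨k, hkd⟩ : ∃ k, k = ∑ i, k0 i := ⟨_, rfl⟩
  have hk1 : ∀ i : Fin m, (X i : MvPolynomial (Fin m) κ) ^ k ∈
      Ideal.span (Set.range fun j => map φ (pderiv j F)) := by
    intro i
    have h1 : k0 i ≤ k := by
      rw [hkd]
      exact Finset.single_le_sum (fun _ _ => Nat.zero_le _) (Finset.mem_univ i)
    rw [← Nat.sub_add_cancel h1, pow_add]
    exact Ideal.mul_mem_left _ _ (hk0 i)
  have hb : ∀ i : Fin m, ∃ s : O, φ s ≠ 0 ∧ ∃ b ∈ J, C (φ s) * X i ^ k = map φ b := by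
    intro i
    rw [hJ]
    exact clearJ φ hφ _ _ (hk1 i)
  choose s0 hs0 b0 hb0 hsb0 using hb
  obtain ⟨s, hsd⟩ : ∃ s, s = ∏ i, s0 i := ⟨_, rfl⟩
  have hs : φ s ≠ 0 := by
    rw [hsd, map_prod]
    exact Finset.prod_ne_zero_iff.2 fun i _ => hs0 i
  have hb : ∀ i : Fin m, ∃ b ∈ J, C (φ s) * X i ^ k = map φ b := by
    intro i
    obtain ⟨t, ht⟩ : s0 i ∣ s := by
      rw [hsd]
      exact Finset.dvd_prod_of_mem _ (Finset.mem_univ i)
    refine ⟨C t * b0 i, Ideal.mul_mem_left _ _ (hb0 i), ?_⟩
    simp only [map_mul, map_C]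
    rw [← hsb0 i, ht]
    simp only [map_mul]
    ring
  -- homogeneity
  have hJh : J.IsHomogeneous (homogeneousSubmodule (Fin m) O) := by
    rw [hJ]
    apply Ideal.homogeneous_span
    rintro _ ⟨j, rfl⟩
    exact ⟨d - 1, hF.pderiv⟩
  obtain ⟨M0, hM0⟩ : ∃ M0, M0 = m * k + 1 := ⟨_, rfl⟩
  obtain ⟨q, hq⟩ : ∃ q : MvPolynomial (Fin m) O →ₗ[O] (MvPolynomial (Fin m) O ⧸ J),
    q = (Ideal.Quotient.mkₐ O J).toLinearMap := ⟨_, rfl⟩
  have hq0 : ∀ x, q x = 0 ↔ x ∈ J := by
    intro x
    rw [hq]
    exact Ideal.Quotient.eq_zero_iff_mem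
  obtain ⟨N, hN⟩ : ∃ N : Submodule O (MvPolynomial (Fin m) O ⧸ J),
    N = Submodule.span O ((fun α => q (monomial α 1)) ''
      (((Finset.univ : Finset (Fin m)).finsuppAntidiag M0 : Finset (Fin m →₀ ℕ)) :
        Set (Fin m →₀ ℕ))) := ⟨_, rfl⟩
  have hNfg : N.FG := by
    rw [hN]
    exact Submodule.fg_span (Set.Finite.image _ (Finset.finite_toSet _))
  have hmemN : ∀ α : Fin m →₀ ℕ, α.degree = M0 → q (monomial α 1) ∈ N := by
    intro α hα
    rw [hN]
    apply Submodule.subset_span
    refine ⟨α, ?_, rfl⟩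
    rw [Finset.mem_coe, Finset.mem_finsuppAntidiag]
    refine ⟨?_, Finset.subset_univ _⟩
    rw [← hα, Finsupp.degree_eq_sum]
  obtain ⟨W, hW, hW2⟩ := nak φ N hNfg s hs (by
    intro x hx
    rw [hN] at hx
    induction hx using Submodule.span_induction with
    | mem x hx =>
      obtain ⟨α, hα, rfl⟩ := hx
      rw [Finset.mem_coe, Finset.mem_finsuppAntidiag] at hα
      have hαd : α.degree = M0 := by
        rw [Finsupp.degree_eq_sum]
        exact hα.1
      obtain ⟨i, hi⟩ : ∃ i, k ≤ α i := by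
        by_contra hcon
        push Not at hcon
        have h1 : ∑ i, α i ≤ ∑ _i : Fin m, k := Finset.sum_le_sum fun i _ => (hcon i).le
        rw [Finset.sum_const, Finset.card_univ, Fintype.card_fin, smul_eq_mul] at h1
        have h2 : ∑ i, α i = M0 := hα.1
        omega
      obtain ⟨b, hbJ, hbe⟩ := hb i
      have hmon : (monomial α (1 : O) : MvPolynomial (Fin m) O) =
          monomial (α - Finsupp.single i k) 1 * X i ^ k := by
        rw [X_pow_eq_monomial, monomial_mul, mul_one, tsub_add_cancel_of_le]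
        rw [Finsupp.single_le_iff]
        exact hi
      obtain ⟨e, he⟩ : ∃ e, e = s • (monomial α (1 : O) : MvPolynomial (Fin m) O) -
        monomial (α - Finsupp.single i k) 1 * b := ⟨_, rfl⟩
      have heφ : map φ e = 0 := by
        rw [he, hmon, smul_eq_C_mul]
        simp only [map_sub, map_mul, map_pow, map_C, map_X, map_monomial, map_one]
        rw [← hbe]
        ring
      have hec : ∀ β, coeff β e ∈ RingHom.ker φ := by
        intro β
        rw [RingHom.mem_ker, ← coeff_map, heφ, coeff_zero]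
      have hhom : homogeneousComponent M0 (s • (monomial α (1 : O) : MvPolynomial (Fin m) O)) =
          s • (monomial α (1 : O) : MvPolynomial (Fin m) O) := by
        have h1 : (monomial α (1 : O) : MvPolynomial (Fin m) O).IsHomogeneous M0 :=
          isHomogeneous_monomial _ hαd
        rw [map_smul, homogeneousComponent_of_mem h1, if_pos rfl]
      have hj : homogeneousComponent M0
          (monomial (α - Finsupp.single i k) 1 * b : MvPolynomial (Fin m) O) ∈ J :=
        homogeneousComponent_mem_of_mem hJh (Ideal.mul_mem_left _ _ hbJ) M0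
      have h1 : s • q (monomial α 1) = q (homogeneousComponent M0 e) := by
        rw [he, map_sub, map_sub, hhom, (hq0 _).2 hj, sub_zero, map_smul]
      show s • q (monomial α 1) ∈ _
      rw [h1, homogeneousComponent_apply, map_sum]
      apply Submodule.sum_mem
      intro β hβ
      rw [Finset.mem_filter] at hβ
      have h2 : (monomial β (coeff β e) : MvPolynomial (Fin m) O) =
          coeff β e • monomial β 1 := by
        rw [smul_monomial, smul_eq_mul, mul_one]
      rw [h2, map_smul]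
      exact Submodule.smul_mem_smul (hec β) (hmemN β hβ.2)
    | zero => rw [smul_zero]; exact zero_mem _
    | add x y _ _ hx hy => rw [smul_add]; exact add_mem hx hy
    | smul a x _ hx => rw [smul_comm]; exact Submodule.smul_mem _ _ hx)
  refine ⟨W, hW, fun i => ⟨M0, ?_⟩⟩
  rw [← hJ, ← hq0, ← smul_eq_C_mul, map_smul, X_pow_eq_monomial]
  exact hW2 _ (hmemN _ (by rw [Finsupp.degree_single]))

end Pool.Agent.U41.PH
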